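import Pool.Agent.helper66.PX.Spec

set_option autoImplicit false

namespace Pool.Agent.PX

universe u v w

theorem CA : CA_stmt.{u, v} := by
  intro L R _ _ _ m y
  let M : MultilinearMap L (fun _ : Fin m => R) R :=
    (LinearMap.mulRight L (y m)).compMultilinearMap
      ((MultilinearMap.mkPiAlgebraFin L m R).compLinearMap (fun k : Fin m => LinearMap.mulLeft L (y k)))
  refine ⟨MultilinearMap.alternatization M, fun x => ?_⟩
  rw [MultilinearMap.alternatization_apply]
  unfold Cap
  refine Finset.sum_congr rfl fun σ _ => ?_
  rw [Units.smul_def]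
  rfl

end Pool.Agent.PX
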